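import Pool.Agent.Helper47.FLG.Alg

/-!
# Project FLG (MP_c98eff_gt), packet NW: quarter pinched flag curvature implies nonnegative complex sectional
curvature, with the equality case.
-/

namespace Pool.Agent.Helper47.FLG

open Finset Pool.Agent.Helper47.RFn

namespace NWaux

variable {n : ℕ}

theorem sum_pair {M : Type*} [AddCommMonoid M] (f : Fin n → Fin n → Fin n → Fin n → M) :
    ∑ a, ∑ b, ∑ c, ∑ d, f a b c d = ∑ c, ∑ d, ∑ a, ∑ b, f a b c d := by
  calc ∑ a, ∑ b, ∑ c, ∑ d, f a b c d = ∑ a, ∑ c, ∑ b, ∑ d, f a b c d :=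
        sum_congr rfl fun a _ => sum_comm
    _ = ∑ c, ∑ a, ∑ b, ∑ d, f a b c d := sum_comm
    _ = ∑ c, ∑ a, ∑ d, ∑ b, f a b c d :=
        sum_congr rfl fun c _ => sum_congr rfl fun a _ => sum_comm
    _ = ∑ c, ∑ d, ∑ a, ∑ b, f a b c d := sum_congr rfl fun c _ => sum_comm

theorem curv_id : IsCurv (Id4 n) := by
  have h : ∀ a b : Fin n, (1 : M2 n) a b = (1 : M2 n) b a := by
    intro a b
    by_cases hab : a = b
    · rw [hab]
    · rw [Matrix.one_apply_ne hab, Matrix.one_apply_ne (Ne.symm hab)]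
  constructor
  · intro a b c d
    simp only [Id4, wdg]
    ring
  · intro a b c d
    simp only [Id4, wdg]
    ring
  · intro a b c d
    simp only [Id4, wdg]
    rw [h a c, h b d, h a d, h b c]
    ring
  · intro a b c d
    simp only [Id4, wdg]
    rw [h b a, h c a, h c b]
    ring

/-- The form in terms of the components of `z ∧ w`. -/
theorem qf_wedge {R : T4 n} (hR : IsCurv R) (z w : Fin n → ℂ) :
    qf R z w = (1 / 4) * (∑ a, ∑ b, ∑ c, ∑ d, (R a b c d : ℂ) * (z a * w b - z b * w a)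
      * star (z c * w d - z d * w c)).re := by
  obtain ⟨S, hS⟩ : ∃ S : ℂ, S = ∑ a, ∑ b, ∑ c, ∑ d, (R a b c d : ℂ) * z a * w b * star (z c)
    * star (w d) := ⟨_, rfl⟩
  have e1 : ∑ a, ∑ b, ∑ c, ∑ d, (R a b c d : ℂ) * z b * w a * star (z c) * star (w d) = -S := by
    have e : ∑ a, ∑ b, ∑ c, ∑ d, (R a b c d : ℂ) * z b * w a * star (z c) * star (w d)
        = ∑ a, ∑ b, ∑ c, ∑ d, (R b a c d : ℂ) * z a * w b * star (z c) * star (w d) := sum_comm
    rw [e, hS]
    simp only [← sum_neg_distrib]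
    refine sum_congr rfl fun a _ => sum_congr rfl fun b _ => sum_congr rfl fun c _ =>
      sum_congr rfl fun d _ => ?_
    rw [hR.a12 b a c d]
    push_cast
    ring
  have e2 : ∑ a, ∑ b, ∑ c, ∑ d, (R a b c d : ℂ) * z a * w b * star (z d) * star (w c) = -S := by
    have e : ∑ a, ∑ b, ∑ c, ∑ d, (R a b c d : ℂ) * z a * w b * star (z d) * star (w c)
        = ∑ a, ∑ b, ∑ c, ∑ d, (R a b d c : ℂ) * z a * w b * star (z c) * star (w d) :=
      sum_congr rfl fun a _ => sum_congr rfl fun b _ => sum_comm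
    rw [e, hS]
    simp only [← sum_neg_distrib]
    refine sum_congr rfl fun a _ => sum_congr rfl fun b _ => sum_congr rfl fun c _ =>
      sum_congr rfl fun d _ => ?_
    rw [hR.a34 a b d c]
    push_cast
    ring
  have e3 : ∑ a, ∑ b, ∑ c, ∑ d, (R a b c d : ℂ) * z b * w a * star (z d) * star (w c) = S := by
    have e : ∑ a, ∑ b, ∑ c, ∑ d, (R a b c d : ℂ) * z b * w a * star (z d) * star (w c)
        = ∑ a, ∑ b, ∑ c, ∑ d, (R a b d c : ℂ) * z b * w a * star (z c) * star (w d) :=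
      sum_congr rfl fun a _ => sum_congr rfl fun b _ => sum_comm
    have e' : ∑ a, ∑ b, ∑ c, ∑ d, (R a b d c : ℂ) * z b * w a * star (z c) * star (w d)
        = -∑ a, ∑ b, ∑ c, ∑ d, (R a b c d : ℂ) * z b * w a * star (z c) * star (w d) := by
      simp only [← sum_neg_distrib]
      refine sum_congr rfl fun a _ => sum_congr rfl fun b _ => sum_congr rfl fun c _ =>
        sum_congr rfl fun d _ => ?_
      rw [hR.a34 a b d c]
      push_cast
      ring
    rw [e, e', e1, neg_neg]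
  have e4 : (∑ a, ∑ b, ∑ c, ∑ d, (R a b c d : ℂ) * (z a * w b - z b * w a)
      * star (z c * w d - z d * w c)) = 4 * S := by
    have e : (∑ a, ∑ b, ∑ c, ∑ d, (R a b c d : ℂ) * (z a * w b - z b * w a)
        * star (z c * w d - z d * w c))
        = (∑ a, ∑ b, ∑ c, ∑ d, (R a b c d : ℂ) * z a * w b * star (z c) * star (w d))
          - (∑ a, ∑ b, ∑ c, ∑ d, (R a b c d : ℂ) * z b * w a * star (z c) * star (w d))
          - (∑ a, ∑ b, ∑ c, ∑ d, (R a b c d : ℂ) * z a * w b * star (z d) * star (w c))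
          + (∑ a, ∑ b, ∑ c, ∑ d, (R a b c d : ℂ) * z b * w a * star (z d) * star (w c)) := by
      simp only [← sum_add_distrib, ← sum_sub_distrib]
      refine sum_congr rfl fun a _ => sum_congr rfl fun b _ => sum_congr rfl fun c _ =>
        sum_congr rfl fun d _ => ?_
      rw [star_sub, star_mul', star_mul']
      ring
    rw [e, e1, e2, e3, ← hS]
    ring
  rw [e4]
  unfold qf
  rw [← hS]
  have : (4 * S).re = 4 * S.re := by simp
  rw [this]
  ring

/-- Change of basis. -/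
theorem qf_basis {R : T4 n} (hR : IsCurv R) (z w z' w' : Fin n → ℂ) (α β γ δ : ℂ)
    (hz : ∀ k, z k = α * z' k + β * w' k) (hw : ∀ k, w k = γ * z' k + δ * w' k) :
    qf R z w = Complex.normSq (α * δ - β * γ) * qf R z' w' := by
  rw [qf_wedge hR, qf_wedge hR]
  have e : (∑ a, ∑ b, ∑ c, ∑ d, (R a b c d : ℂ) * (z a * w b - z b * w a)
      * star (z c * w d - z d * w c))
      = (Complex.normSq (α * δ - β * γ) : ℂ) *
        (∑ a, ∑ b, ∑ c, ∑ d, (R a b c d : ℂ) * (z' a * w' b - z' b * w' a)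
      * star (z' c * w' d - z' d * w' c)) := by
    simp only [mul_sum]
    refine sum_congr rfl fun a _ => sum_congr rfl fun b _ => sum_congr rfl fun c _ =>
      sum_congr rfl fun d _ => ?_
    have h1 : ∀ a b, z a * w b - z b * w a = (α * δ - β * γ) * (z' a * w' b - z' b * w' a) := by
      intro a b
      rw [hz, hz, hw, hw]
      ring
    rw [h1, h1, star_mul', Complex.normSq_eq_conj_mul_self]
    simp only [starRingEnd_apply]
    ring
  rw [e, Complex.re_ofReal_mul]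
  ring

theorem id_contract (a b : Fin n) (X : Fin n → Fin n → ℂ) :
    ∑ c, ∑ d, (Id4 n a b c d : ℂ) * X c d = X a b - X b a := by
  have e1 : ∀ c d, (Id4 n a b c d : ℂ) = (if a = c then (1:ℂ) else 0) * (if b = d then (1:ℂ) else 0)
      - (if b = c then (1:ℂ) else 0) * (if a = d then (1:ℂ) else 0) := by
    intro c d
    simp only [Id4, wdg, Matrix.one_apply]
    split_ifs <;> norm_num
  have e2 : ∑ c, ∑ d, (Id4 n a b c d : ℂ) * X c d
      = (∑ c, ∑ d, (if a = c then (1:ℂ) else 0) * (if b = d then (1:ℂ) else 0) * X c d)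
        - ∑ c, ∑ d, (if b = c then (1:ℂ) else 0) * (if a = d then (1:ℂ) else 0) * X c d := by
    simp only [← sum_sub_distrib]
    refine sum_congr rfl fun c _ => sum_congr rfl fun d _ => ?_
    rw [e1]
    ring
  rw [e2]
  congr 1 <;> simp

theorem qf_zero {R : T4 n} (hR : IsCurv R) (hI : IsCurv (Id4 n)) (z w : Fin n → ℂ)
    (h : qf (Id4 n) z w = 0) : qf R z w = 0 := by
  rw [qf_wedge hI] at h
  have e : (∑ a, ∑ b, ∑ c, ∑ d, (Id4 n a b c d : ℂ) * (z a * w b - z b * w a)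
      * star (z c * w d - z d * w c))
      = ((∑ a, ∑ b, 2 * Complex.normSq (z a * w b - z b * w a) : ℝ) : ℂ) := by
    push_cast
    refine sum_congr rfl fun a _ => sum_congr rfl fun b _ => ?_
    have e1 : (∑ c, ∑ d, (Id4 n a b c d : ℂ) * (z a * w b - z b * w a)
        * star (z c * w d - z d * w c))
        = ∑ c, ∑ d, (Id4 n a b c d : ℂ) * ((z a * w b - z b * w a)
        * star (z c * w d - z d * w c)) :=
      sum_congr rfl fun c _ => sum_congr rfl fun d _ => by ring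
    rw [e1, id_contract a b (fun c d => (z a * w b - z b * w a) * star (z c * w d - z d * w c)),
      Complex.normSq_eq_conj_mul_self]
    simp only [starRingEnd_apply]
    have e2 : star (z b * w a - z a * w b) = -star (z a * w b - z b * w a) := by
      rw [← star_neg]
      congr 1
      ring
    rw [e2]
    ring
  rw [e, Complex.ofReal_re] at h
  have h1 : ∑ a, ∑ b, 2 * Complex.normSq (z a * w b - z b * w a) = 0 := by linarith
  have h2 : ∀ a b, z a * w b - z b * w a = 0 := by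
    intro a b
    have h3 := (sum_eq_zero_iff_of_nonneg (fun a _ => sum_nonneg fun b _ =>
      mul_nonneg zero_le_two (Complex.normSq_nonneg (z a * w b - z b * w a)))).1 h1 a (mem_univ a)
    have h4 := (sum_eq_zero_iff_of_nonneg (fun b _ =>
      mul_nonneg zero_le_two (Complex.normSq_nonneg (z a * w b - z b * w a)))).1 h3 b (mem_univ b)
    have h5 : Complex.normSq (z a * w b - z b * w a) = 0 := by linarith
    exact Complex.normSq_eq_zero.1 h5
  rw [qf_wedge hR]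
  have e : (∑ a, ∑ b, ∑ c, ∑ d, (R a b c d : ℂ) * (z a * w b - z b * w a)
      * star (z c * w d - z d * w c)) = 0 := by
    refine sum_eq_zero fun a _ => sum_eq_zero fun b _ => sum_eq_zero fun c _ =>
      sum_eq_zero fun d _ => ?_
    rw [h2]
    ring
  rw [e]
  simp

/-- linear combination -/
def lc (s : ℝ) (a : Fin n → ℝ) (t : ℝ) (b : Fin n → ℝ) : Fin n → ℝ := fun i => s * a i + t * b i

theorem dot_comm' (u v : Fin n → ℝ) : dot u v = dot v u := by
  unfold dot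
  exact sum_congr rfl fun i _ => mul_comm _ _

theorem dot_lc (s t : ℝ) (a b c : Fin n → ℝ) : dot (lc s a t b) c = s * dot a c + t * dot b c := by
  unfold dot lc
  rw [mul_sum, mul_sum, ← sum_add_distrib]
  exact sum_congr rfl fun i _ => by ring

theorem dot_lc' (s t : ℝ) (a b c : Fin n → ℝ) : dot c (lc s a t b) = s * dot c a + t * dot c b := by
  rw [dot_comm', dot_lc, dot_comm' a, dot_comm' b]

/-- four orthonormal vectors -/
structure O4 (a b c d : Fin n → ℝ) : Prop where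
  aa : dot a a = 1
  bb : dot b b = 1
  cc : dot c c = 1
  dd : dot d d = 1
  ab : dot a b = 0
  ac : dot a c = 0
  ad : dot a d = 0
  bc : dot b c = 0
  bd : dot b d = 0
  cd : dot c d = 0

/-- the facts on `R4` for a fixed curvature tensor -/
structure RF (R : T4 n) : Prop where
  l1 : ∀ (a a' b c d : Fin n → ℝ) (s t : ℝ), R4 R (lc s a t a') b c d = s * R4 R a b c d + t * R4 R a' b c d
  l2 : ∀ (a a' b c d : Fin n → ℝ) (s t : ℝ), R4 R b (lc s a t a') c d = s * R4 R b a c d + t * R4 R b a' c d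
  l3 : ∀ (a a' b c d : Fin n → ℝ) (s t : ℝ), R4 R b c (lc s a t a') d = s * R4 R b c a d + t * R4 R b c a' d
  l4 : ∀ (a a' b c d : Fin n → ℝ) (s t : ℝ), R4 R b c d (lc s a t a') = s * R4 R b c d a + t * R4 R b c d a'
  a12 : ∀ a b c d, R4 R a b c d = - R4 R b a c d
  a34 : ∀ a b c d, R4 R a b c d = - R4 R a b d c
  pr : ∀ a b c d, R4 R a b c d = R4 R c d a b
  bi : ∀ a b c d, R4 R a b c d + R4 R b c a d + R4 R c a b d = 0
  k : ∀ u v, K2 R u v = R4 R u v u v

theorem rf_of (hR4T : G_R4T) {R : T4 n} (hR : IsCurv R) : RF R := by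
  obtain ⟨h1, -, h3, h4, -⟩ := hR4T n
  refine ⟨fun a a' b c d s t => (h1 R a a' b c d s t).1, fun a a' b c d s t => (h1 R a a' b c d s t).2.1,
    fun a a' b c d s t => (h1 R a a' b c d s t).2.2.1, fun a a' b c d s t => (h1 R a a' b c d s t).2.2.2,
    fun a b c d => (h3 R hR a b c d).1, fun a b c d => (h3 R hR a b c d).2.1,
    fun a b c d => (h3 R hR a b c d).2.2.1, fun a b c d => (h3 R hR a b c d).2.2.2, h4 R⟩

/-- expansion of `K2` -/
theorem k2_exp {R : T4 n} (h : RF R) (a b c d : Fin n → ℝ) (t s : ℝ) :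
    K2 R (lc 1 a t b) (lc 1 c s d) = K2 R a c + t ^ 2 * K2 R b c + s ^ 2 * K2 R a d + s ^ 2 * t ^ 2 * K2 R b d
      + 2 * s * R4 R a c a d + 2 * t * R4 R a c b c + 2 * s ^ 2 * t * R4 R a d b d + 2 * s * t ^ 2 * R4 R b c b d
      + 2 * s * t * (R4 R a c b d + R4 R a d b c) := by
  simp only [h.k, h.l1, h.l2, h.l3, h.l4]
  have e1 := h.pr a d a c
  have e2 := h.pr b c a c
  have e3 := h.pr b d a d
  have e4 := h.pr b d b c
  have e5 := h.pr b d a c
  have e6 := h.pr b c a d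
  rw [e1, e2, e3, e4, e5, e6]
  ring

theorem k2_two {R : T4 n} (h : RF R) (a b : Fin n → ℝ) (p q p' q' : ℝ) :
    K2 R (lc p a q b) (lc p' a q' b) = (p * q' - q * p') ^ 2 * K2 R a b := by
  simp only [h.k, h.l1, h.l2, h.l3, h.l4]
  have z1 : ∀ x c d, R4 R x x c d = 0 := fun x c d => by linarith [h.a12 x x c d]
  have z2 : ∀ x c d, R4 R c d x x = 0 := fun x c d => by linarith [h.a34 c d x x]
  rw [h.a12 b a a b, h.a12 b a b a, h.a34 a b b a]
  simp only [z1, z2]
  ring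

theorem wd_exp {a b c d : Fin n → ℝ} (hn : ∀ u : Fin n → ℝ, nrm u = dot u u) (h : O4 a b c d) (s t : ℝ)
    (hs : s ^ 2 = 1) (ht : t ^ 2 = 1) :
    wd (lc 1 a t b) (lc 1 c s d) = 4 := by
  unfold wd
  simp only [hn, dot_lc, dot_lc', h.aa, h.bb, h.cc, h.dd, h.ab, h.ac, h.ad, h.bc, h.bd, h.cd, dot_comm' b a,
    dot_comm' d c]
  linear_combination (1 + t ^ 2) * hs + 2 * ht

/-- the flag inequality for two vectors `y, z` in the plane of `a, c` -/
theorem flag {R : T4 n} (hR : FG R) {x y z : Fin n → ℝ} (h1 : wd x z = 4) (h2 : wd y z = 4) :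
    K2 R x z ≤ 4 * K2 R y z := by
  have h := hR.2 z x y
  unfold fl at h
  rw [h1, h2] at h
  linarith

theorem wd_two {a c : Fin n → ℝ} (hn : ∀ u : Fin n → ℝ, nrm u = dot u u) (haa : dot a a = 1)
    (hcc : dot c c = 1) (hac : dot a c = 0) (p q p' q' : ℝ) :
    wd (lc p a q c) (lc p' a q' c) = (p * q' - q * p') ^ 2 := by
  unfold wd
  simp only [hn, dot_lc, dot_lc', haa, hcc, hac, dot_comm' c a]
  ring

/-- the basic inequality -/
theorem h1 {R : T4 n} (hR : FG R) (h : RF R) (hK : ∀ u v, K2 R u v = K2 R v u)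
    (hn : ∀ u : Fin n → ℝ, nrm u = dot u u) {a b c d : Fin n → ℝ} (ho : O4 a b c d) :
    R4 R b a d c + R4 R b c d a ≤ 3 * min (K2 R a c) (K2 R b d) := by
  have hwc : ∀ u v : Fin n → ℝ, wd u v = wd v u := fun u v => by
    unfold wd
    rw [dot_comm' u v]
    ring
  have ho' : O4 b d a c := ⟨ho.bb, ho.dd, ho.aa, ho.cc, ho.bd, by rw [dot_comm', ho.ab], ho.bc,
    by rw [dot_comm', ho.ad], by rw [dot_comm', ho.cd], ho.ac⟩
  have hw : ∀ s t : ℝ, s ^ 2 = 1 → t ^ 2 = 1 → wd (lc 1 b t d) (lc 1 a s c) = 4 := fun s t hs ht =>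
    wd_exp hn ho' s t hs ht
  -- (i)
  have i1 : ∀ s : ℝ, s ^ 2 = 1 → K2 R (lc 1 b s d) (lc 1 a s c) ≤ 16 * K2 R a c := by
    intro s hs
    have e1 : wd (lc (-1) a s c) (lc 1 a s c) = 4 := by
      rw [wd_two hn ho.aa ho.cc ho.ac]
      linear_combination 4 * hs
    have e2 := flag hR (hw s s hs hs) e1
    rw [k2_two h] at e2
    have e3 : (-1 * s - s * 1) ^ 2 = 4 := by linear_combination 4 * hs
    rw [e3] at e2
    linarith
  have i2 : ∀ s : ℝ, s ^ 2 = 1 → K2 R (lc 1 b s d) (lc 1 a s c) ≤ 16 * K2 R b d := by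
    intro s hs
    have e1 : wd (lc (-1) b s d) (lc 1 b s d) = 4 := by
      rw [wd_two hn ho.bb ho.dd ho.bd]
      linear_combination 4 * hs
    have e0 : wd (lc 1 a s c) (lc 1 b s d) = 4 := by rw [hwc, hw s s hs hs]
    have e2 := flag hR e0 e1
    rw [k2_two h] at e2
    have e3 : (-1 * s - s * 1) ^ 2 = 4 := by linear_combination 4 * hs
    rw [e3, hK] at e2
    linarith
  have i3 : ∀ s : ℝ, s ^ 2 = 1 → K2 R (lc 1 b s d) (lc 1 a s c) ≤ 4 * K2 R (lc 1 b (-s) d) (lc 1 a s c) := by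
    intro s hs
    exact flag hR (hw s s hs hs) (hw s (-s) hs (by rw [neg_sq, hs]))
  have a1 := i1 1 (by norm_num)
  have a2 := i1 (-1) (by norm_num)
  have b1 := i2 1 (by norm_num)
  have b2 := i2 (-1) (by norm_num)
  have c1 := i3 1 (by norm_num)
  have c2 := i3 (-1) (by norm_num)
  simp only [k2_exp h] at a1 a2 b1 b2 c1 c2
  rw [← sub_nonneg]
  rcases min_choice (K2 R a c) (K2 R b d) with hm | hm <;> rw [hm] <;> linarith

/-- the sum of the two inequalities -/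
theorem upper {R : T4 n} (hR : FG R) (h : RF R) (hK : ∀ u v, K2 R u v = K2 R v u)
    (hn : ∀ u : Fin n → ℝ, nrm u = dot u u) {a b c d : Fin n → ℝ} (ho : O4 a b c d) :
    R4 R a b c d ≤ min (K2 R a c) (K2 R b d) + min (K2 R a d) (K2 R b c) := by
  have ho' : O4 a b d (lc (-1) c 0 c) := by
    refine ⟨ho.aa, ho.bb, ho.dd, ?_, ho.ab, ho.ad, ?_, ho.bd, ?_, ?_⟩
    · rw [dot_lc, dot_lc', ho.cc]
      norm_num
    · rw [dot_lc', ho.ac]
      norm_num
    · rw [dot_lc', ho.bc]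
      norm_num
    · rw [dot_lc', dot_comm', ho.cd]
      norm_num
  have g1 := h1 hR h hK hn ho
  have g2 := h1 hR h hK hn ho'
  have e1 : K2 R b (lc (-1) c 0 c) = K2 R b c := by
    simp only [h.k, h.l2, h.l4]
    ring
  rw [e1] at g2
  simp only [h.l3] at g2
  have e2 := h.a12 b a d c
  have e3 := h.a34 a b d c
  have e4 := h.a34 b a c d
  have e5 := h.bi b c d a
  have e6 := h.a12 c d b a
  have e7 := h.pr d c a b
  have e8 := h.a12 d c b a
  have e9 := h.a34 d c b a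
  have e10 := h.pr c d b a
  have e11 := h.a12 b a c d
  have e12 := h.a12 d b c a
  have e13 := h.a12 b d c a
  linarith

theorem lower {R : T4 n} (hR : FG R) (h : RF R) (hK : ∀ u v, K2 R u v = K2 R v u)
    (hn : ∀ u : Fin n → ℝ, nrm u = dot u u) {a b c d : Fin n → ℝ} (ho : O4 a b c d) :
    |R4 R a b c d| ≤ min (K2 R a c) (K2 R b d) + min (K2 R a d) (K2 R b c) := by
  have ho' : O4 a (lc (-1) b 0 b) c d := by
    refine ⟨ho.aa, ?_, ho.cc, ho.dd, ?_, ho.ac, ho.ad, ?_, ?_, ho.cd⟩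
    · rw [dot_lc, dot_lc', ho.bb]
      norm_num
    · rw [dot_lc', ho.ab]
      norm_num
    · rw [dot_lc, ho.bc]
      norm_num
    · rw [dot_lc, ho.bd]
      norm_num
  have g1 := upper hR h hK hn ho
  have g2 := upper hR h hK hn ho'
  have e1 : K2 R (lc (-1) b 0 b) d = K2 R b d := by
    simp only [h.k, h.l1, h.l3]
    ring
  have e2 : K2 R (lc (-1) b 0 b) c = K2 R b c := by
    simp only [h.k, h.l1, h.l3]
    ring
  rw [e1, e2, h.l2] at g2
  rw [abs_le]
  constructor <;> linarith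

theorem o4_of {e : Fin 4 → Fin n → ℝ} (he : ON e) : O4 (e 0) (e 1) (e 2) (e 3) := by
  refine ⟨?_, ?_, ?_, ?_, ?_, ?_, ?_, ?_, ?_, ?_⟩ <;> rw [he] <;> simp

/-- nonnegativity of the form on a normal form -/
theorem form_eq (hR4T : G_R4T) {S : T4 n} (hS : IsCurv S) (hS' : RF S) (a b c d : Fin n → ℝ) (l m : ℝ) :
    qf S (cv a (lc l b 0 b)) (cv c (lc m d 0 d)) =
      K2 S a c + m ^ 2 * K2 S a d + l ^ 2 * K2 S b c + l ^ 2 * m ^ 2 * K2 S b d - 2 * (l * m) * R4 S a b c d := by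
  obtain ⟨-, -, -, -, -, -, -, -, -, -, -, hq, -⟩ := hR4T n
  rw [hq S hS]
  simp only [hS'.k, hS'.l1, hS'.l2, hS'.l3, hS'.l4]
  ring

/-- lower bound of the form with remainder terms -/
theorem scal (A B C D r l m : ℝ) (hA : 0 ≤ A) (hB : 0 ≤ B) (hC : 0 ≤ C) (hD : 0 ≤ D)
    (hr : |r| ≤ min A D + min B C) :
    (A - min A D) + (l * m) ^ 2 * (D - min A D) + min A D * (1 - |l * m|) ^ 2 +
      (m ^ 2 * (B - min B C) + l ^ 2 * (C - min B C) + min B C * (|l| - |m|) ^ 2) ≤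
      A + m ^ 2 * B + l ^ 2 * C + l ^ 2 * m ^ 2 * D - 2 * (l * m) * r := by
  have h1 : (l * m) * r ≤ |l * m| * (min A D + min B C) := by
    calc (l * m) * r ≤ |(l * m) * r| := le_abs_self _
      _ = |l * m| * |r| := abs_mul _ _
      _ ≤ |l * m| * (min A D + min B C) := mul_le_mul_of_nonneg_left hr (abs_nonneg _)
  have h2 : |l * m| ^ 2 = l ^ 2 * m ^ 2 := by rw [sq_abs]; ring
  have h3 : |l * m| = |l| * |m| := abs_mul _ _
  have h4 : |l| ^ 2 = l ^ 2 := sq_abs _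
  have h5 : |m| ^ 2 = m ^ 2 := sq_abs _
  have h6 : (1 - |l * m|) ^ 2 = 1 - 2 * |l * m| + l ^ 2 * m ^ 2 := by rw [← h2]; ring
  have h7 : (|l| - |m|) ^ 2 = l ^ 2 + m ^ 2 - 2 * |l * m| := by rw [h3, ← h4, ← h5]; ring
  rw [h6, h7]
  nlinarith

end NWaux

open NWaux in
/-- **NW.** -/
theorem g_NW (hR4T : G_R4T) (hFG1 : G_FG1) (hNF : RFn.Goal_NF) : G_NW := by
  intro n hn
  obtain ⟨-, -, -, -, hK, -, -, -, hnn, -, -, -, -⟩ := hR4T n
  have hpos : ∀ R : T4 n, FG R → ∀ u v, 0 ≤ K2 R u v := (hFG1 n).2.2.2.2.2.2.1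
  have hkey : ∀ (R : T4 n) (e : Fin 4 → Fin n → ℝ), FG R → ON e →
      |R4 R (e 0) (e 1) (e 2) (e 3)| ≤ min (K2 R (e 0) (e 2)) (K2 R (e 1) (e 3)) +
        min (K2 R (e 0) (e 3)) (K2 R (e 1) (e 2)) := fun R e hR he =>
    lower hR (rf_of hR4T hR.1) (hK R hR.1) hnn (o4_of he)
  -- normal form
  have hnf : ∀ z w : Fin n → ℂ, qf (Id4 n) z w ≠ 0 → ∃ (e : Fin 4 → Fin n → ℝ) (lm mu D : ℝ), ON e ∧ |lm| ≤ 1 ∧
      |mu| ≤ 1 ∧ 0 ≤ D ∧ ∀ S : T4 n, IsCurv S → qf S z w = D * (K2 S (e 0) (e 2) + mu ^ 2 * K2 S (e 0) (e 3) +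
        lm ^ 2 * K2 S (e 1) (e 2) + lm ^ 2 * mu ^ 2 * K2 S (e 1) (e 3) -
          2 * (lm * mu) * R4 S (e 0) (e 1) (e 2) (e 3)) := by
    intro z w hI
    obtain ⟨e, lm, mu, α, β, γ, δ, he, hl, hm, hz, hw⟩ := hNF n hn z w hI
    refine ⟨e, lm, mu, Complex.normSq (α * δ - β * γ), he, hl, hm, Complex.normSq_nonneg _, fun S hS => ?_⟩
    rw [← form_eq hR4T hS (rf_of hR4T hS)]
    refine qf_basis hS z w _ _ α β γ δ ?_ ?_
    · intro k
      rw [hz k]
      unfold cv lc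
      push_cast
      ring
    · intro k
      rw [hw k]
      unfold cv lc
      push_cast
      ring
  refine ⟨hkey, fun R hR => ⟨hR.1, fun z w => ?_⟩, ?_⟩
  · by_cases hI : qf (Id4 n) z w = 0
    · rw [qf_zero hR.1 curv_id z w hI]
    · obtain ⟨e, lm, mu, D, he, hl, hm, hD, hS⟩ := hnf z w hI
      rw [hS R hR.1]
      refine mul_nonneg hD ?_
      have p1 := hpos R hR (e 0) (e 2)
      have p2 := hpos R hR (e 0) (e 3)
      have p3 := hpos R hR (e 1) (e 2)
      have p4 := hpos R hR (e 1) (e 3)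
      refine le_trans ?_ (scal (K2 R (e 0) (e 2)) (K2 R (e 0) (e 3)) (K2 R (e 1) (e 2)) (K2 R (e 1) (e 3))
        (R4 R (e 0) (e 1) (e 2) (e 3)) lm mu p1 p2 p3 p4 (hkey R e hR he))
      have q1 := min_le_left (K2 R (e 0) (e 2)) (K2 R (e 1) (e 3))
      have q2 := min_le_right (K2 R (e 0) (e 2)) (K2 R (e 1) (e 3))
      have q3 := min_le_left (K2 R (e 0) (e 3)) (K2 R (e 1) (e 2))
      have q4 := min_le_right (K2 R (e 0) (e 3)) (K2 R (e 1) (e 2))
      have q5 := le_min p1 p4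
      have q6 := le_min p2 p3
      have r1 := sub_nonneg.2 q1
      have r2 := sub_nonneg.2 q2
      have r3 := sub_nonneg.2 q3
      have r4 := sub_nonneg.2 q4
      positivity
  · intro R z w hR hKp h0 hI
    obtain ⟨e, lm, mu, D, he, hl, hm, hD, hS⟩ := hnf z w hI
    have ho := o4_of he
    have hId := hS (Id4 n) curv_id
    have hD0 : D ≠ 0 := by
      rintro rfl
      rw [zero_mul] at hId
      exact hI hId
    have hDp : 0 < D := lt_of_le_of_ne hD (Ne.symm hD0)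
    have hR0 := hS R hR.1
    rw [h0] at hR0
    have hR1 := (mul_eq_zero.1 hR0.symm).resolve_left hD0
    have w1 : ∀ u v : Fin n → ℝ, dot u u = 1 → dot v v = 1 → dot u v = 0 → 0 < K2 R u v := by
      intro u v hu hv huv
      refine hKp u v ?_
      unfold wd
      rw [hnn, hnn, hu, hv, huv]
      norm_num
    have p1 := w1 _ _ ho.aa ho.cc ho.ac
    have p2 := w1 _ _ ho.aa ho.dd ho.ad
    have p3 := w1 _ _ ho.bb ho.cc ho.bc
    have p4 := w1 _ _ ho.bb ho.dd ho.bd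
    have hsc := scal (K2 R (e 0) (e 2)) (K2 R (e 0) (e 3)) (K2 R (e 1) (e 2)) (K2 R (e 1) (e 3))
        (R4 R (e 0) (e 1) (e 2) (e 3)) lm mu p1.le p2.le p3.le p4.le (hkey R e hR he)
    rw [hR1] at hsc
    have q1 := min_le_left (K2 R (e 0) (e 2)) (K2 R (e 1) (e 3))
    have q2 := min_le_right (K2 R (e 0) (e 2)) (K2 R (e 1) (e 3))
    have q3 := min_le_left (K2 R (e 0) (e 3)) (K2 R (e 1) (e 2))
    have q4 := min_le_right (K2 R (e 0) (e 3)) (K2 R (e 1) (e 2))
    have q5 := lt_min p1 p4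
    have q6 := lt_min p2 p3
    have r1 := sub_nonneg.2 q1
    have r2 := sub_nonneg.2 q2
    have r3 := sub_nonneg.2 q3
    have r4 := sub_nonneg.2 q4
    have t1 : 0 ≤ (lm * mu) ^ 2 * (K2 R (e 1) (e 3) - min (K2 R (e 0) (e 2)) (K2 R (e 1) (e 3))) := by positivity
    have t2 : 0 ≤ min (K2 R (e 0) (e 2)) (K2 R (e 1) (e 3)) * (1 - |lm * mu|) ^ 2 := by positivity
    have t3 : 0 ≤ mu ^ 2 * (K2 R (e 0) (e 3) - min (K2 R (e 0) (e 3)) (K2 R (e 1) (e 2))) := by positivity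
    have t4 : 0 ≤ lm ^ 2 * (K2 R (e 1) (e 2) - min (K2 R (e 0) (e 3)) (K2 R (e 1) (e 2))) := by positivity
    have t5 : 0 ≤ min (K2 R (e 0) (e 3)) (K2 R (e 1) (e 2)) * (|lm| - |mu|) ^ 2 := by positivity
    have s2 : min (K2 R (e 0) (e 2)) (K2 R (e 1) (e 3)) * (1 - |lm * mu|) ^ 2 = 0 := by linarith
    have habs : |lm * mu| = 1 := by
      have := (mul_eq_zero.1 s2).resolve_left q5.ne'
      have h3 := pow_eq_zero_iff (two_ne_zero) |>.1 this
      linarith
    have hlm2 : (lm * mu) ^ 2 = 1 := by rw [← sq_abs, habs]; norm_num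
    have hl1 : |lm| = 1 := by
      rw [abs_mul] at habs
      have := abs_nonneg lm
      have := abs_nonneg mu
      nlinarith
    have hm1 : |mu| = 1 := by
      rw [abs_mul, hl1, one_mul] at habs
      exact habs
    have hl2 : lm ^ 2 = 1 := by rw [← sq_abs, hl1]; norm_num
    have hm2 : mu ^ 2 = 1 := by rw [← sq_abs, hm1]; norm_num
    rw [hlm2] at t1 hsc
    rw [hm2] at t3 hsc
    rw [hl2] at t4 hsc
    have u1 : K2 R (e 0) (e 2) = K2 R (e 1) (e 3) := by linarith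
    have u2 : K2 R (e 0) (e 3) = K2 R (e 1) (e 2) := by linarith
    have u3 : lm * mu * R4 R (e 0) (e 1) (e 2) (e 3) = K2 R (e 0) (e 2) + K2 R (e 0) (e 3) := by
      rw [hl2, hm2] at hR1
      linarith
    have k1 : ∀ S : T4 n, IsCurv S → ∀ (l : ℝ) (u v : Fin n → ℝ), l ^ 2 = 1 →
        K2 S (lc l u 0 u) v = K2 S u v ∧ K2 S v (lc l u 0 u) = K2 S v u := by
      intro S hS l u v hl
      have hS' := rf_of hR4T hS
      constructor
      · simp only [hS'.k, hS'.l1, hS'.l3]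
        linear_combination (R4 S u v u v) * hl
      · simp only [hS'.k, hS'.l2, hS'.l4]
        linear_combination (R4 S v u v u) * hl
    have hRF := rf_of hR4T hR.1
    refine ⟨![e 0, lc lm (e 1) 0 (e 1), e 2, lc mu (e 3) 0 (e 3)], ?_, ?_, ?_, ?_, ?_⟩
    · intro i j
      fin_cases i <;> fin_cases j <;>
        simp [dot_lc, dot_lc', ho.aa, ho.bb, ho.cc, ho.dd, ho.ab, ho.ac, ho.ad, ho.bc, ho.bd, ho.cd,
          dot_comm' (e 1) (e 0), dot_comm' (e 2) (e 0), dot_comm' (e 3) (e 0), dot_comm' (e 2) (e 1),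
          dot_comm' (e 3) (e 1), dot_comm' (e 3) (e 2)]
      · linarith
      · linarith
    · show K2 R (e 0) (e 2) = K2 R (lc lm (e 1) 0 (e 1)) (lc mu (e 3) 0 (e 3))
      rw [(k1 R hR.1 lm _ _ hl2).1, (k1 R hR.1 mu _ _ hm2).2, u1]
    · show K2 R (e 0) (lc mu (e 3) 0 (e 3)) = K2 R (lc lm (e 1) 0 (e 1)) (e 2)
      rw [(k1 R hR.1 lm _ _ hl2).1, (k1 R hR.1 mu _ _ hm2).2, u2]
    · show R4 R (e 0) (lc lm (e 1) 0 (e 1)) (e 2) (lc mu (e 3) 0 (e 3)) =
        K2 R (e 0) (e 2) + K2 R (e 0) (lc mu (e 3) 0 (e 3))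
      rw [(k1 R hR.1 mu _ _ hm2).2, ← u3, hRF.l2, hRF.l4]
      ring
    · intro S hS4
      show 4 * qf S z w = qf (Id4 n) z w * qf S (cv (e 0) (lc lm (e 1) 0 (e 1))) (cv (e 2) (lc mu (e 3) 0 (e 3)))
      rw [form_eq hR4T hS4 (rf_of hR4T hS4), hS S hS4, hId]
      have v1 : ∀ u v : Fin n → ℝ, dot u u = 1 → dot v v = 1 → dot u v = 0 → K2 (Id4 n) u v = 1 := by
        intro u v hu hv huv
        obtain ⟨-, -, -, -, -, -, hw, -⟩ := hR4T n
        rw [hw]
        unfold wd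
        rw [hnn, hnn, hu, hv, huv]
        norm_num
      have v2 : R4 (Id4 n) (e 0) (e 1) (e 2) (e 3) = 0 := by
        obtain ⟨-, -, -, -, -, hw, -⟩ := hR4T n
        rw [hw, ho.ac, ho.ad]
        ring
      rw [v1 _ _ ho.aa ho.cc ho.ac, v1 _ _ ho.aa ho.dd ho.ad, v1 _ _ ho.bb ho.cc ho.bc, v1 _ _ ho.bb ho.dd ho.bd,
        v2, hl2, hm2]
      ring

end Pool.Agent.Helper47.FLG
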