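import Pool.Agent.Helper47.FLG.Fun
import Pool.Agent.Helper19.RFn.ONBa

/-!
# Project FLG (MP_c98eff_gt), packet ONF: one time of a good flow with nonnegative Ricci curvature
-/

namespace Pool.Agent.Helper47.FLG

open Finset Pool.Agent.Helper47.RFn Pool.Agent.Helper73.RFn

namespace ONFaux

open Pool.Agent.Helper19.RFn.ONB

/-- the smallness of `η` -/
theorem eta_small {C D σ y : ℝ} (hC : 1 ≤ C) (hD : 0 < D) (hσ : 0 < σ)
    (hy : (2 * Real.sqrt C * D) ^ (2 / σ) ≤ y) :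
    Real.sqrt C * y ^ (-(σ / 2)) * D ≤ 1 / 2 := by
  have hsC : 0 < Real.sqrt C := Real.sqrt_pos.mpr (by linarith)
  have hB : 0 < 2 * Real.sqrt C * D := by positivity
  have hy0 : 0 < y := lt_of_lt_of_le (Real.rpow_pos_of_pos hB _) hy
  have h1 : 2 * Real.sqrt C * D ≤ y ^ (σ / 2) := by
    have h2 : ((2 * Real.sqrt C * D) ^ (2 / σ)) ^ (σ / 2) = 2 * Real.sqrt C * D := by
      rw [← Real.rpow_mul hB.le]
      have : 2 / σ * (σ / 2) = 1 := by field_simp
      rw [this, Real.rpow_one]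
    rw [← h2]
    exact Real.rpow_le_rpow (by positivity) hy (by positivity)
  have h3 : y ^ (-(σ / 2)) = (y ^ (σ / 2))⁻¹ := Real.rpow_neg hy0.le _
  have h4 : 0 < y ^ (σ / 2) := Real.rpow_pos_of_pos hy0 _
  rw [h3]
  have h5 : Real.sqrt C * (y ^ (σ / 2))⁻¹ * D = (Real.sqrt C * D) / y ^ (σ / 2) := by
    rw [div_eq_mul_inv]; ring
  rw [h5, div_le_iff₀ h4]
  linarith

/-- the Ricci tensor vanishes in the radial direction -/
theorem rc_nu {n : ℕ} (hFRF : Goal_FRF) {A θ : MF n} (hF : Frm A θ) {x : EE n} (hx : x ≠ 0) :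
    (∀ a, ∑ b, Rcf A θ a b x * nfc A b x = 0) ∧ ∀ a b, Rcf A θ a b x = Rcf A θ b a x := by
  obtain ⟨-, -, -, -, -, -, -, -, -, -, -, -, -, hC, hN, -⟩ := hFRF n A θ hF
  have hR := hC x hx
  have hsym : ∀ a b, Rcf A θ a b x = Rcf A θ b a x := by
    intro a b
    unfold Rcf
    refine sum_congr rfl fun c _ => ?_
    exact hR.pair a c b c
  refine ⟨fun a => ?_, hsym⟩
  have h1 : ∀ c b, Rf A θ a b c b x = Rf A θ b a b c x := by
    intro c b
    have e1 := hR.a12 a b c b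
    have e2 := hR.a34 b a c b
    rw [e1, e2, neg_neg]
  unfold Rcf
  simp only [sum_mul]
  rw [sum_comm]
  refine sum_eq_zero fun b _ => ?_
  have h2 := hN x hx b a b
  rw [← h2]
  refine sum_congr rfl fun c _ => ?_
  rw [h1]

/-- from a lower bound on the complement of the radial vector to `RcF` -/
theorem rcF_of {n : ℕ} (hFRF : Goal_FRF) {A θ : MF n} (hF : Frm A θ) {x : EE n} (hx : x ≠ 0)
    (hnu : ∑ a, nfc A a x ^ 2 = 1) {k : ℝ}
    (h : ∀ w : Fin (n + 1) → ℝ, ∑ a, nfc A a x * w a = 0 →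
      k * ∑ a, w a ^ 2 ≤ ∑ a, ∑ b, Rcf A θ a b x * w a * w b) : RcF k A θ x := by
  intro v
  obtain ⟨hN, hS⟩ := rc_nu hFRF hF hx
  set s : ℝ := dot v (fun a => nfc A a x) with hs
  have hs' : ∑ a, v a * nfc A a x = s := rfl
  have h0 : ∑ a, nfc A a x * (v a - s * nfc A a x) = 0 := by
    have e : ∑ a, nfc A a x * (v a - s * nfc A a x) = ∑ a, v a * nfc A a x - s * ∑ a, nfc A a x ^ 2 := by
      rw [mul_sum, ← sum_sub_distrib]
      exact sum_congr rfl fun a _ => by ring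
    rw [e, hs', hnu]
    ring
  have h1 := h (fun a => v a - s * nfc A a x) h0
  have e1 : ∑ a, (v a - s * nfc A a x) ^ 2 = nrm v - s ^ 2 := by
    have e : ∑ a, (v a - s * nfc A a x) ^ 2 =
        ∑ a, v a ^ 2 - 2 * s * ∑ a, v a * nfc A a x + s ^ 2 * ∑ a, nfc A a x ^ 2 := by
      rw [mul_sum, mul_sum, ← sum_sub_distrib, ← sum_add_distrib]
      exact sum_congr rfl fun a _ => by ring
    rw [e, hs', hnu]
    unfold nrm
    ring
  have e2 : ∑ a, ∑ b, Rcf A θ a b x * (v a - s * nfc A a x) * (v b - s * nfc A b x) =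
      ∑ a, ∑ b, Rcf A θ a b x * v a * v b := by
    have e3 : ∀ a, ∑ b, Rcf A θ a b x * (v a - s * nfc A a x) * (v b - s * nfc A b x) =
        (v a - s * nfc A a x) * ∑ b, Rcf A θ a b x * v b := by
      intro a
      have e : ∑ b, Rcf A θ a b x * (v a - s * nfc A a x) * (v b - s * nfc A b x) =
          (v a - s * nfc A a x) * ∑ b, Rcf A θ a b x * v b -
            (v a - s * nfc A a x) * s * ∑ b, Rcf A θ a b x * nfc A b x := by
        rw [mul_sum, mul_sum, ← sum_sub_distrib]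
        exact sum_congr rfl fun b _ => by ring
      rw [e, hN a]
      ring
    simp only [e3]
    have e4 : ∑ a, nfc A a x * ∑ b, Rcf A θ a b x * v b = 0 := by
      simp only [mul_sum]
      rw [sum_comm]
      refine sum_eq_zero fun b _ => ?_
      have e5 := hN b
      calc ∑ a, nfc A a x * (Rcf A θ a b x * v b) = v b * ∑ a, Rcf A θ b a x * nfc A a x := by
            rw [mul_sum]
            exact sum_congr rfl fun a _ => by rw [hS a b]; ring
        _ = 0 := by rw [e5, mul_zero]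
    have e6 : ∑ a, (v a - s * nfc A a x) * ∑ b, Rcf A θ a b x * v b =
        ∑ a, v a * ∑ b, Rcf A θ a b x * v b - s * ∑ a, nfc A a x * ∑ b, Rcf A θ a b x * v b := by
      rw [mul_sum, ← sum_sub_distrib]
      exact sum_congr rfl fun a _ => by ring
    rw [e6, e4, mul_zero, sub_zero]
    refine sum_congr rfl fun a _ => ?_
    rw [mul_sum]
    exact sum_congr rfl fun b _ => by ring
  rw [e1, e2] at h1
  exact h1

end ONFaux

open ONFaux Pool.Agent.Helper19.RFn.ONB in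
/-- **ONF.** -/
theorem p_ONF (hMYS : MysStmt) (hRLB : Pool.Agent.Helper19.RFn.RlbStmt) (hLIP : LipStmt) (hFHM : FhmStmt)
    (hFRF : Goal_FRF) : OnfStmt := by
  intro n C σ hn hC hσ hσ1
  obtain ⟨L, hL0, hMy⟩ := hMYS n (by omega)
  set D : ℝ := Real.sqrt 2 * L + ((n : ℝ) + 1) ^ 2 with hD
  have hs2 : 0 < Real.sqrt 2 := Real.sqrt_pos.mpr (by norm_num)
  have hD0 : 0 < D := by positivity
  have hsC : 1 ≤ Real.sqrt C := Real.one_le_sqrt.2 hC
  have hsC0 : 0 < Real.sqrt C := by linarith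
  set C' : ℝ := max (max C (Real.sqrt 2 * L * Real.sqrt C)) (max (Real.sqrt C) ((2 * Real.sqrt C * D) ^ (2 / σ)))
    with hC'
  have d1 : C ≤ C' := (le_max_left _ _).trans (le_max_left _ _)
  have d2 : Real.sqrt 2 * L * Real.sqrt C ≤ C' := (le_max_right _ _).trans (le_max_left _ _)
  have d3 : Real.sqrt C ≤ C' := (le_max_left _ _).trans (le_max_right _ _)
  have d4 : (2 * Real.sqrt C * D) ^ (2 / σ) ≤ C' := (le_max_right _ _).trans (le_max_right _ _)
  refine ⟨C', hC.trans d1, ?_⟩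
  intro T l0 A θ hT hl00 hF hG hRic t Q ht htT hQ hex hy
  obtain ⟨p0, hp0, hp0Q⟩ := hex
  have hQ0 : 0 < Q := by
    have := (hG.p1 t ht.le htT p0 hp0).1
    linarith
  set y : ℝ := t * Q with hyd
  have hy0 : 0 < y := mul_pos ht hQ0
  have hsQ : 0 < Real.sqrt Q := Real.sqrt_pos.mpr hQ0
  have hyσ : 0 < y ^ (-(σ / 2)) := Real.rpow_pos_of_pos hy0 _
  set η : ℝ := Real.sqrt C * y ^ (-(σ / 2)) with hη
  have hη0 : 0 < η := by positivity
  have hηD : η * D ≤ 1 / 2 := eta_small hC hD0 hσ (d4.trans hy)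
  have hη2 : η ^ 2 = C * y ^ (-σ) := by
    have h1 : (y ^ (-(σ / 2))) ^ 2 = y ^ (-σ) := by
      rw [← Real.rpow_natCast, ← Real.rpow_mul hy0.le]
      congr 1
      push_cast
      ring
    rw [hη, mul_pow, h1, Real.sq_sqrt (by linarith)]
  -- the estimates of the flow
  have hp3 := hG.p3 t Q ht htT hQ (d1.trans hy)
  have hfrm : Frm (A t) (θ t) := frm_of_flow hF ⟨ht.le, htT⟩
  obtain ⟨hGm, -, -, -, -, hlamSm, -, -, -, -, hgg, hnu, -, -, -⟩ := (hFHM n).1 (A t) (θ t) hfrm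
  have hEf : ∀ x, x ≠ 0 → ∀ a b c d, |Ef (A t) (θ t) a b c d x| ≤ η * Q := by
    intro x hx a b c d
    have e1 := (hp3 x hx).2
    have e3 : e2f (A t) (θ t) x ≤ (η * Q) ^ 2 := by
      calc e2f (A t) (θ t) x ≤ C * y ^ (-σ) * Q ^ 2 := e1
        _ = (η * Q) ^ 2 := by rw [mul_pow η Q 2, hη2]
    exact abs_le_of_sq_le_sq ((ef_sq_le _ _ a b c d x).trans e3) (by positivity)
  set lam : EE n → ℝ := lamf (A t) (θ t) with hlam
  set m : ℝ := η * (Q * Real.sqrt Q) with hm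
  have hm0 : 0 < m := by positivity
  have hggl : ∀ x, x ≠ 0 → ggf (A t) lam lam x ≤ m ^ 2 := by
    intro x hx
    have e1 := (hp3 x hx).1
    have e2 : m ^ 2 = C * y ^ (-σ) * Q ^ 3 := by
      rw [hm, mul_pow, hη2, mul_pow, Real.sq_sqrt hQ0.le]; ring
    rw [e2]
    exact e1
  have hmi : m⁻¹ ^ 2 * m ^ 2 = 1 := by field_simp
  set h : EE n → ℝ := fun x => m⁻¹ * (Q - lam x) with hh
  have hhSm : Sm h := sm_smul (sm_sub (sm_const Q) hlamSm) _
  have hh1 : ∀ x, x ≠ 0 → ggf (A t) h h x ≤ 1 := by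
    intro x hx
    rw [hh, ggf_aff _ hlamSm, ← hmi]
    exact mul_le_mul_of_nonneg_left (hggl x hx) (by positivity)
  have hhp : h p0 = 0 := by
    simp only [hh]
    rw [hp0Q, sub_self, mul_zero]
  have hk0 : 0 < Q / 2 := by linarith
  have hsk : Real.sqrt (Q / 2) = Real.sqrt Q / Real.sqrt 2 := Real.sqrt_div hQ0.le 2
  have hLk : L / Real.sqrt (Q / 2) = Real.sqrt 2 * L / Real.sqrt Q := by
    rw [hsk]
    field_simp
  have hmL : ∀ x, h x ≤ L / Real.sqrt (Q / 2) → Q - lam x ≤ η * (Real.sqrt 2 * L) * Q := by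
    intro x hx
    rw [hLk] at hx
    have e1 : m * (m⁻¹ * (Q - lam x)) ≤ m * (Real.sqrt 2 * L / Real.sqrt Q) := mul_le_mul_of_nonneg_left hx hm0.le
    rw [← mul_assoc, mul_inv_cancel₀ hm0.ne', one_mul] at e1
    have e2 : m * (Real.sqrt 2 * L / Real.sqrt Q) = η * (Real.sqrt 2 * L) * Q := by rw [hm]; field_simp
    linarith
  have hRk : ∀ x, x ≠ 0 → h x ≤ L / Real.sqrt (Q / 2) → RcF (Q / 2) (A t) (θ t) x := by
    intro x hx hxL
    refine rcF_of hFRF hfrm hx (hnu x hx) fun w hw => ?_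
    have e1 := hRLB n (A t) (θ t) x (η * Q) (by omega) (hnu x hx) (hEf x hx) w hw
    refine le_trans (mul_le_mul_of_nonneg_right ?_ (sum_nonneg fun _ _ => sq_nonneg _)) e1
    have e2 := hmL x hxL
    have e3 : η * D * Q ≤ 1 / 2 * Q := mul_le_mul_of_nonneg_right hηD hQ0.le
    rw [hD] at e3
    have e4 : lamf (A t) (θ t) x = lam x := rfl
    rw [e4]
    nlinarith
  have hdist := hMy (A t) (θ t) hfrm (hRic t ht htT) (Q / 2) h p0 hk0 hhSm hh1 hp0 hhp.le hRk
  intro x hx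
  refine ⟨?_, fun a b c d => (hEf x hx a b c d).trans ?_⟩
  · have e1 := hdist _ _ (norm_unit hp0) (norm_unit hx)
    have e2 := hLIP n (gOf (θ t)) h 1 (by omega) hGm hhSm zero_le_one (fun z hz => by
      rw [← (hgg h h hhSm hhSm).2 z, one_pow]
      exact hh1 z hz) _ _ (norm_unit hp0) (norm_unit hx)
    rw [hom_unit hhSm.hom hp0, hom_unit hhSm.hom hx, hhp, zero_sub, abs_neg, one_mul] at e2
    have e3 := hmL x ((le_abs_self _).trans (e2.trans e1))
    have e4 : η * (Real.sqrt 2 * L) * Q ≤ C' * y ^ (-(σ / 2)) * Q := by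
      refine mul_le_mul_of_nonneg_right ?_ hQ0.le
      calc η * (Real.sqrt 2 * L) = Real.sqrt 2 * L * Real.sqrt C * y ^ (-(σ / 2)) := by rw [hη]; ring
        _ ≤ C' * y ^ (-(σ / 2)) := mul_le_mul_of_nonneg_right d2 hyσ.le
    have e5 : (1 - C' * y ^ (-(σ / 2))) * Q = Q - C' * y ^ (-(σ / 2)) * Q := by ring
    rw [e5]
    linarith
  · refine mul_le_mul_of_nonneg_right ?_ hQ0.le
    exact mul_le_mul_of_nonneg_right d3 hyσ.le

end Pool.Agent.Helper47.FLG
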